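import Pool.Agent.W670.JI.BtoG
import Pool.Agent.W335.JIKR
import Pool.Agent.W574.HS.LocalForm
import Pool.Agent.N101.CB.BL
import Pool.Agent.N101.CB.StmI

/-!
# Local functional equations of ideals and of `∑ y_j f_j`
-/

set_option autoImplicit false

namespace Pool.Agent.J6H85.CI

open MvPolynomial
open Pool.Agent.H628R4.TP (weylS IsLocalBFunction)
open Pool.Agent.W749.JI (gpol IsLocalBIdeal)
open Pool.Agent.W749.NM (IsUnitB)
open Pool.Agent.N101.CB (stI stp)

/-! ### Renaming of the variables -/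

section
variable {σ τ : Type}

theorem weylS_conj (e : σ ≃ τ) {Q : Module.End ℂ (MvPolynomial σ ℂ)} (hQ : Q ∈ weylS σ) :
    ((renameEquiv ℂ e).toLinearMap ∘ₗ Q ∘ₗ (renameEquiv ℂ e).symm.toLinearMap :
      Module.End ℂ (MvPolynomial τ ℂ)) ∈ weylS τ := by
  unfold weylS at hQ
  refine Algebra.adjoin_induction (p := fun Q _ =>
    ((renameEquiv ℂ e).toLinearMap ∘ₗ Q ∘ₗ (renameEquiv ℂ e).symm.toLinearMap :
      Module.End ℂ (MvPolynomial τ ℂ)) ∈ weylS τ) ?_ ?_ ?_ ?_ hQ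
  · rintro x (⟨i, rfl⟩ | ⟨i, rfl⟩)
    · refine Algebra.subset_adjoin (Or.inl ⟨e i, ?_⟩)
      refine LinearMap.ext fun g => ?_
      show X (e i) * g = renameEquiv ℂ e (X i * (renameEquiv ℂ e).symm g)
      rw [map_mul, AlgEquiv.apply_symm_apply, renameEquiv_apply, rename_X]
    · refine Algebra.subset_adjoin (Or.inr ⟨e i, ?_⟩)
      refine LinearMap.ext fun g => ?_
      show pderiv (e i) g = renameEquiv ℂ e (pderiv i ((renameEquiv ℂ e).symm g))
      rw [renameEquiv_apply, ← pderiv_rename e.injective, ← renameEquiv_apply,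
        AlgEquiv.apply_symm_apply]
  · intro c
    have h : ((renameEquiv ℂ e).toLinearMap ∘ₗ (algebraMap ℂ (Module.End ℂ (MvPolynomial σ ℂ)) c) ∘ₗ
        (renameEquiv ℂ e).symm.toLinearMap : Module.End ℂ (MvPolynomial τ ℂ)) =
        algebraMap ℂ (Module.End ℂ (MvPolynomial τ ℂ)) c := by
      refine LinearMap.ext fun g => ?_
      show renameEquiv ℂ e (c • (renameEquiv ℂ e).symm g) = c • g
      rw [map_smul, AlgEquiv.apply_symm_apply]
    rw [h]
    exact (weylS τ).algebraMap_mem c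
  · intro x y _ _ hx hy
    have h : ((renameEquiv ℂ e).toLinearMap ∘ₗ (x + y) ∘ₗ
        (renameEquiv ℂ e).symm.toLinearMap : Module.End ℂ (MvPolynomial τ ℂ)) =
        ((renameEquiv ℂ e).toLinearMap ∘ₗ x ∘ₗ (renameEquiv ℂ e).symm.toLinearMap) +
        ((renameEquiv ℂ e).toLinearMap ∘ₗ y ∘ₗ (renameEquiv ℂ e).symm.toLinearMap) := by
      refine LinearMap.ext fun g => ?_
      show renameEquiv ℂ e (x ((renameEquiv ℂ e).symm g) + y ((renameEquiv ℂ e).symm g)) = _
      rw [map_add]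
      rfl
    rw [h]
    exact (weylS τ).add_mem hx hy
  · intro x y _ _ hx hy
    have h : ((renameEquiv ℂ e).toLinearMap ∘ₗ (x * y) ∘ₗ
        (renameEquiv ℂ e).symm.toLinearMap : Module.End ℂ (MvPolynomial τ ℂ)) =
        ((renameEquiv ℂ e).toLinearMap ∘ₗ x ∘ₗ (renameEquiv ℂ e).symm.toLinearMap) *
        ((renameEquiv ℂ e).toLinearMap ∘ₗ y ∘ₗ (renameEquiv ℂ e).symm.toLinearMap) := by
      refine LinearMap.ext fun g => ?_
      show renameEquiv ℂ e (x (y ((renameEquiv ℂ e).symm g))) =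
        renameEquiv ℂ e (x ((renameEquiv ℂ e).symm (renameEquiv ℂ e
          (y ((renameEquiv ℂ e).symm g)))))
      rw [AlgEquiv.symm_apply_apply]
    rw [h]
    exact (weylS τ).mul_mem hx hy

theorem lb_rename (e : σ ≃ τ) {f : MvPolynomial σ ℂ} {b : Polynomial ℂ}
    (h : IsLocalBFunction f b) : IsLocalBFunction (rename e f) b := by
  obtain ⟨L, m, a, Q, h⟩ := h
  refine ⟨L, m, fun i => MvPowerSeries.rename e (a i), fun i => ⟨_, weylS_conj e (Q i).2⟩,
    fun s => ?_⟩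
  have h1 := congrArg (MvPowerSeries.rename (R := ℂ) e) (h s)
  have hC : ∀ c : ℂ, MvPowerSeries.rename (R := ℂ) e (MvPowerSeries.C c) = MvPowerSeries.C c :=
    fun c => MvPowerSeries.rename_C _ c
  have hp : ∀ p : MvPolynomial σ ℂ, MvPowerSeries.rename (R := ℂ) e (p : MvPowerSeries σ ℂ) =
      ((rename e p : MvPolynomial τ ℂ) : MvPowerSeries τ ℂ) :=
    fun p => MvPowerSeries.rename_coe _ p
  rw [map_mul, hC, hp, map_pow, map_sum] at h1
  rw [h1]
  refine Finset.sum_congr rfl fun i _ => ?_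
  rw [map_mul, map_mul, hC, hp]
  congr 3
  have h2 : ((renameEquiv ℂ e).symm (rename e f ^ (s + 1)) : MvPolynomial σ ℂ) = f ^ (s + 1) := by
    rw [map_pow, ← renameEquiv_apply, AlgEquiv.symm_apply_apply]
  show rename e _ = renameEquiv ℂ e (((Q i : Module.End ℂ (MvPolynomial σ ℂ)))
    ((renameEquiv ℂ e).symm (rename e f ^ (s + 1))))
  rw [h2, renameEquiv_apply]

end

/-! ### Polynomial units -/

theorem unit_coe {σ : Type} {a : MvPolynomial σ ℂ} (ha : constantCoeff a ≠ 0) :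
    ∃ u : MvPowerSeries σ ℂ, u * (a : MvPowerSeries σ ℂ) = 1 := by
  have h : IsUnit (a : MvPowerSeries σ ℂ) := by
    rw [MvPowerSeries.isUnit_iff_constantCoeff]
    have h1 : MvPowerSeries.constantCoeff (a : MvPowerSeries σ ℂ) = constantCoeff a := by
      rw [← MvPowerSeries.coeff_zero_eq_constantCoeff_apply, MvPolynomial.coeff_coe,
        MvPolynomial.constantCoeff_eq]
    rw [h1]
    exact isUnit_iff_ne_zero.2 ha
  obtain ⟨u, hu⟩ := h
  exact ⟨((u⁻¹ : (MvPowerSeries σ ℂ)ˣ) : MvPowerSeries σ ℂ), by rw [← hu, Units.inv_mul]⟩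

theorem coe_sum' {σ ι : Type} (s : Finset ι) (g : ι → MvPolynomial σ ℂ) :
    ((∑ i ∈ s, g i : MvPolynomial σ ℂ) : MvPowerSeries σ ℂ) =
      ∑ i ∈ s, (g i : MvPowerSeries σ ℂ) :=
  map_sum (MvPolynomial.coeToMvPowerSeries.ringHom (R := ℂ) (σ := σ)) g s

theorem coe_smul' {σ : Type} (c : ℂ) (g : MvPolynomial σ ℂ) :
    ((c • g : MvPolynomial σ ℂ) : MvPowerSeries σ ℂ) =
      MvPowerSeries.C c * (g : MvPowerSeries σ ℂ) := by
  rw [MvPolynomial.smul_eq_C_mul, MvPolynomial.coe_mul, MvPolynomial.coe_C]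

theorem lb_of_unit {n : ℕ} {f : MvPolynomial (Fin n) ℂ} {b : Polynomial ℂ} (h : IsUnitB f b) :
    IsLocalBFunction f b := by
  obtain ⟨a, P, ha, h⟩ := h
  obtain ⟨u, hu⟩ := unit_coe (a := a) (by rw [ha]; exact one_ne_zero)
  set e := P.support.equivFin with he
  refine ⟨P.support.card, fun i => ((e.symm i : P.support) : ℕ), fun _ => u,
    fun i => P (e.symm i : P.support), fun s => ?_⟩
  have h1 := congrArg (fun g : MvPolynomial (Fin n) ℂ => (g : MvPowerSeries (Fin n) ℂ)) (h s)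
  simp only [MvPolynomial.coe_mul, MvPolynomial.coe_C] at h1
  rw [Finsupp.sum, coe_sum'] at h1
  have h2 : MvPowerSeries.C (b.eval (s : ℂ)) * ((f ^ s : MvPolynomial (Fin n) ℂ) :
      MvPowerSeries (Fin n) ℂ) = u * (MvPowerSeries.C (b.eval (s : ℂ)) *
        (a : MvPowerSeries (Fin n) ℂ) *
        ((f ^ s : MvPolynomial (Fin n) ℂ) : MvPowerSeries (Fin n) ℂ)) := by
    linear_combination (-(MvPowerSeries.C (b.eval (s : ℂ)) *
      ((f ^ s : MvPolynomial (Fin n) ℂ) : MvPowerSeries (Fin n) ℂ))) * hu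
  rw [h2, h1, Finset.mul_sum, ← Finset.sum_coe_sort P.support, ← e.symm.sum_comp]
  refine Finset.sum_congr rfl fun i _ => ?_
  rw [coe_smul']
  ring

/-! ### From the ideal to `g = ∑ y_j f_j` -/

theorem lb_of_ideal {n r : ℕ} (f : Fin r → MvPolynomial (Fin n) ℂ) (b : Polynomial ℂ)
    (h : IsLocalBIdeal f b) : IsLocalBFunction (gpol f) ((Polynomial.X + 1) * b) :=
  lb_of_unit (Pool.Agent.W670.JIBtoG.main Pool.W335.JIKR.main f b h)

/-! ### From `g` to the ideal -/

/-- the variables -/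
def ev (n r : ℕ) : Fin (n + r) ≃ Fin r ⊕ Fin n :=
  finSumFinEquiv.symm.trans (Equiv.sumComm (Fin n) (Fin r))

theorem ev_x {n r : ℕ} (i : Fin n) : ev n r (Fin.castAdd r i) = Sum.inr i := by
  unfold ev
  rw [Equiv.trans_apply, finSumFinEquiv_symm_apply_castAdd]
  rfl

theorem ev_y {n r : ℕ} (j : Fin r) : ev n r (Fin.natAdd n j) = Sum.inl j := by
  unfold ev
  rw [Equiv.trans_apply, finSumFinEquiv_symm_apply_natAdd]
  rfl

theorem rename_gpol {n r : ℕ} (f : Fin r → MvPolynomial (Fin n) ℂ) :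
    rename (ev n r) (gpol f) = Pool.Agent.W574.HS.univ f := by
  unfold gpol Pool.Agent.W574.HS.univ
  rw [map_sum]
  refine Finset.sum_congr rfl fun j _ => ?_
  have h : (⇑(ev n r) ∘ Fin.castAdd r) = Sum.inr := funext fun i => ev_x i
  rw [map_mul, rename_X, ev_y, rename_rename, h]

theorem gpol_ne {n r : ℕ} {f : Fin r → MvPolynomial (Fin n) ℂ} (hf : ∃ j, f j ≠ 0) :
    gpol f ≠ 0 := by
  intro h
  refine Pool.Agent.W574.HS.univ_ne_zero f hf ?_
  rw [← rename_gpol, h, map_zero]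

theorem gpol_const {n r : ℕ} (f : Fin r → MvPolynomial (Fin n) ℂ) :
    constantCoeff (gpol f) = 0 := by
  unfold gpol
  rw [map_sum]
  refine Finset.sum_eq_zero fun j _ => ?_
  rw [map_mul, constantCoeff_X, zero_mul]

theorem ideal_of_lb {n r : ℕ} (f : Fin r → MvPolynomial (Fin n) ℂ) (hf : ∃ j, f j ≠ 0)
    (b : Polynomial ℂ) (h : IsLocalBFunction (gpol f) b) : IsLocalBIdeal f b := by
  classical
  have h1 := lb_rename (ev n r) h
  rw [rename_gpol] at h1
  obtain ⟨H, P₀, hH, hP₀⟩ := Pool.Agent.W574.HS.algebraic_of_local _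
    (Pool.Agent.W574.HS.univ_ne_zero f hf) b h1
  have h2 := Pool.Agent.W574.HS.locEq_of_univ f b H P₀ hP₀
  obtain ⟨S, P, hS, hP⟩ := h2
  obtain ⟨u, hu⟩ := unit_coe (a := Pool.Agent.W574.HS.hat H 0) (by
    rw [Pool.Agent.W574.HS.cc_hat]
    exact hH)
  set T : Finset (Σ _ : Fin r → ℤ, Fin r →₀ ℕ) := S.sigma fun c => (P c).support with hT
  set e := T.equivFin with he
  refine ⟨T.card, fun l => (e.symm l : T).1.1, fun l => monomial (e.symm l : T).1.2 1,
    fun _ => u, fun l => ⟨_, (P (e.symm l : T).1.1 (e.symm l : T).1.2).2⟩, fun l => ?_,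
    fun s => ?_⟩
  · have h3 : (e.symm l : T).1 ∈ S.sigma fun c => (P c).support := (e.symm l : T).2
    exact hS _ (Finset.mem_sigma.1 h3).1
  · have h3 := congrArg (fun g : MvPolynomial (Fin n) ℂ => (g : MvPowerSeries (Fin n) ℂ)) (hP s)
    simp only [MvPolynomial.coe_mul, MvPolynomial.coe_C] at h3
    rw [coe_sum'] at h3
    have h4 : MvPowerSeries.C (b.eval ((∑ i, s i : ℕ) : ℂ)) *
        ((∏ i, f i ^ s i : MvPolynomial (Fin n) ℂ) : MvPowerSeries (Fin n) ℂ) =
        u * (((Pool.Agent.W574.HS.hat H 0 : MvPolynomial (Fin n) ℂ) : MvPowerSeries (Fin n) ℂ) *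
          (MvPowerSeries.C (b.eval ((∑ i, s i : ℕ) : ℂ)) *
        ((∏ i, f i ^ s i : MvPolynomial (Fin n) ℂ) : MvPowerSeries (Fin n) ℂ))) := by
      linear_combination (-(MvPowerSeries.C (b.eval ((∑ i, s i : ℕ) : ℂ)) *
        ((∏ i, f i ^ s i : MvPolynomial (Fin n) ℂ) : MvPowerSeries (Fin n) ℂ))) * hu
    rw [h4, h3, Finset.mul_sum]
    have h5 : ∀ c : Fin r → ℤ, ((Pool.Agent.W574.SM.applyAt (P c) s
        (C ((∏ j, (if c j < 0 then (s j).choose (-c j).toNat else 1) : ℕ) : ℂ) *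
            ∏ j, f j ^ ((s j : ℤ) + c j).toNat) : MvPolynomial (Fin n) ℂ) :
              MvPowerSeries (Fin n) ℂ) =
        ∑ β ∈ (P c).support, MvPowerSeries.C ((∏ j, (s j : ℂ) ^ β j) *
          ∏ j, ((s j).choose (-(c j)).toNat : ℂ)) *
          (((P c β : Module.End ℂ (MvPolynomial (Fin n) ℂ))
            (∏ j, f j ^ ((s j : ℤ) + c j).toNat) : MvPolynomial (Fin n) ℂ) :
              MvPowerSeries (Fin n) ℂ) := by
      intro c
      unfold Pool.Agent.W574.SM.applyAt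
      rw [Finsupp.sum, coe_sum']
      refine Finset.sum_congr rfl fun β _ => ?_
      have h6 : ((∏ j, (if c j < 0 then (s j).choose (-c j).toNat else 1) : ℕ) : ℂ) =
          ∏ j, ((s j).choose (-(c j)).toNat : ℂ) := by
        push_cast
        refine Finset.prod_congr rfl fun j _ => ?_
        split_ifs with h7
        · rfl
        · have h8 : (-(c j)).toNat = 0 := by omega
          rw [h8, Nat.choose_zero_right, Nat.cast_one]
      rw [coe_smul', h6, C_mul', map_smul, coe_smul', ← mul_assoc, ← map_mul]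
    simp only [h5]
    rw [Finset.sum_congr rfl fun c _ => Finset.mul_sum _ _ _]
    rw [← Finset.sum_sigma S (fun c => (P c).support) (fun x => u *
      (MvPowerSeries.C ((∏ j, (s j : ℂ) ^ x.2 j) *
          ∏ j, ((s j).choose (-(x.1 j)).toNat : ℂ)) *
          (((P x.1 x.2 : Module.End ℂ (MvPolynomial (Fin n) ℂ))
            (∏ j, f j ^ ((s j : ℤ) + x.1 j).toNat) : MvPolynomial (Fin n) ℂ) :
              MvPowerSeries (Fin n) ℂ))), ← hT, ← Finset.sum_coe_sort T, ← e.symm.sum_comp]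
    refine Finset.sum_congr rfl fun l _ => ?_
    have h9 : eval (fun i => (s i : ℂ)) (monomial (e.symm l : T).1.2 (1 : ℂ)) =
        ∏ j, (s j : ℂ) ^ (e.symm l : T).1.2 j := by
      rw [eval_monomial, one_mul, Finsupp.prod_fintype _ _ fun _ => pow_zero _]
    rw [h9]
    ring

end Pool.Agent.J6H85.CI
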