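import Pool.Agent.J6H85.CI.Zet

/-!
# Poles
-/

set_option autoImplicit false

namespace Pool.Agent.J6H85.CI

open MvPolynomial Pool.Agent.W428.MOT
open Pool.Agent.W749.JI (JetI zetaI)
open Pool.Agent.N101.CB (stI exI)
open Pool.Agent.J6H85.CU

section
variable {R : Type} [CommRing R]

/-- the pairs `(a, b)`, `b > 0`, with `a / b ≠ s` -/
def Off (s : ℚ) : Set (ℤ × ℤ) := {p | 0 < p.2 ∧ (p.1 : ℚ) / p.2 ≠ s}

theorem off_pos (s : ℚ) : ∀ p ∈ Off s, 0 < p.2 := fun _ hp => hp.1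

theorem ratio_add (a b : ℤ) (hb : 0 < b) : ((a + b : ℤ) : ℚ) / b = (a : ℚ) / b + 1 := by
  have h : (b : ℚ) ≠ 0 := by exact_mod_cast hb.ne'
  push_cast
  rw [add_div, div_self h]

theorem ratio_sub (a b : ℤ) (hb : 0 < b) : ((a - b : ℤ) : ℚ) / b = (a : ℚ) / b - 1 := by
  have h : (b : ℚ) ≠ 0 := by exact_mod_cast hb.ne'
  push_cast
  rw [sub_div, div_self h]

theorem rescale_off {u : Rˣ} {s : ℚ} {z : PowerSeries R} (hz : z ∈ rat u (Off s)) :
    PowerSeries.rescale (u : R) z ∈ rat u (Off (s + 1)) := by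
  refine rat_mono u ?_ (rescale_mem u (off_pos s) hz)
  rintro _ ⟨q, hq, rfl⟩
  refine ⟨hq.1, ?_⟩
  have e : (q.1 + ((1 : ℕ) : ℤ) * q.2) = q.1 + q.2 := by push_cast; ring
  simp only [e]
  rw [ratio_add _ _ hq.1]
  intro h
  exact hq.2 (by linarith)

theorem rescale_rescale (u : Rˣ) (z : PowerSeries R) :
    PowerSeries.rescale (u : R) (PowerSeries.rescale ((u⁻¹ : Rˣ) : R) z) = z := by
  rw [PowerSeries.rescale_rescale, Units.inv_mul, PowerSeries.rescale_one]
  rfl

theorem rescale_rescale' (u : Rˣ) (z : PowerSeries R) :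
    PowerSeries.rescale ((u⁻¹ : Rˣ) : R) (PowerSeries.rescale (u : R) z) = z := by
  rw [PowerSeries.rescale_rescale, Units.mul_inv, PowerSeries.rescale_one]
  rfl

theorem rescale_inv_off {u : Rˣ} {s : ℚ} {z : PowerSeries R} (hz : z ∈ rat u (Off s)) :
    PowerSeries.rescale ((u⁻¹ : Rˣ) : R) z ∈ rat u (Off (s - 1)) := by
  unfold rat at hz
  refine Algebra.adjoin_induction (p := fun z _ =>
    PowerSeries.rescale ((u⁻¹ : Rˣ) : R) z ∈ rat u (Off (s - 1))) ?_ ?_ ?_ ?_ hz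
  · rintro x (hx | ⟨p, hp, rfl⟩)
    · rw [Set.mem_singleton_iff] at hx
      rw [hx, rescale_X']
      exact (rat u _).mul_mem (C_mem _ _ _) (X_mem _ _)
    · have h1 := rescale_geoR u (p.1 - p.2) p.2 hp.1
      rw [sub_add_cancel] at h1
      rw [← h1, rescale_rescale']
      refine geoR_mem u (p := (p.1 - p.2, p.2)) ⟨hp.1, ?_⟩
      simp only
      rw [ratio_sub _ _ hp.1]
      intro h
      exact hp.2 (by linarith)
  · intro r
    rw [PowerSeries.algebraMap_apply, Algebra.algebraMap_self, RingHom.id_apply, rescale_C']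
    exact C_mem _ _ _
  · intro x y _ _ hx hy
    rw [map_add]
    exact (rat u _).add_mem hx hy
  · intro x y _ _ hx hy
    rw [map_mul]
    exact (rat u _).mul_mem hx hy

theorem one_sub_geo (u : Rˣ) : (1 - PowerSeries.X : PowerSeries R) * geoR u 0 1 = 1 := by
  have h := geoR_mul u 0 1 one_pos
  rw [show (1 : ℤ).toNat = 1 from rfl, zpow_zero, Units.val_one, map_one, one_mul, pow_one] at h
  exact h

/-- **From the larger ideal to the smaller one.** -/
theorem off_step {u : Rˣ} {c : R} {Z Z' : PowerSeries R}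
    (h : fst u * (PowerSeries.C c - Z') = (1 - PowerSeries.X) *
      (PowerSeries.C c - PowerSeries.rescale ((u⁻¹ : Rˣ) : R) Z)) {s : ℚ} (hs : s ≠ 1)
    (hz : Z' ∈ rat u (Off (s - 1))) : Z ∈ rat u (Off s) := by
  have h1 : PowerSeries.rescale ((u⁻¹ : Rˣ) : R) Z =
      PowerSeries.C c - geoR u 0 1 * (fst u * (PowerSeries.C c - Z')) := by
    rw [h]
    linear_combination (PowerSeries.rescale ((u⁻¹ : Rˣ) : R) Z - PowerSeries.C c) *
      (-one_sub_geo u)
  have h2 : PowerSeries.rescale ((u⁻¹ : Rˣ) : R) Z ∈ rat u (Off (s - 1)) := by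
    rw [h1]
    refine (rat u _).sub_mem (C_mem _ _ _) ((rat u _).mul_mem ?_ ((rat u _).mul_mem
      (fst_mem _ _) ((rat u _).sub_mem (C_mem _ _ _) hz)))
    refine geoR_mem u (p := ((0, 1) : ℤ × ℤ)) ⟨one_pos, ?_⟩
    simp only [Int.cast_zero, Int.cast_one, zero_div]
    intro h3
    exact hs (by linarith)
  have h3 := rescale_off h2
  rw [rescale_rescale, sub_add_cancel] at h3
  exact h3

/-- **From the smaller ideal to the larger one.** -/
theorem off_back {u : Rˣ} {c : R} {Z Z' : PowerSeries R}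
    (h : fst u * (PowerSeries.C c - Z') = (1 - PowerSeries.X) *
      (PowerSeries.C c - PowerSeries.rescale ((u⁻¹ : Rˣ) : R) Z)) {s : ℚ} (hs : s ≠ 0)
    (hz : Z ∈ rat u (Off s)) : Z' ∈ rat u (Off (s - 1)) := by
  have h1 : Z' = PowerSeries.C c - geoR u (-1) 1 * ((1 - PowerSeries.X) *
      (PowerSeries.C c - PowerSeries.rescale ((u⁻¹ : Rˣ) : R) Z)) := by
    rw [← h]
    linear_combination (Z' - PowerSeries.C c) * (-fst_mul u)
  rw [h1]
  refine (rat u _).sub_mem (C_mem _ _ _) ((rat u _).mul_mem ?_ ((rat u _).mul_mem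
    ((rat u _).sub_mem (rat u _).one_mem (X_mem _ _))
    ((rat u _).sub_mem (C_mem _ _ _) (rescale_inv_off hz))))
  refine geoR_mem u (p := ((-1, 1) : ℤ × ℤ)) ⟨one_pos, ?_⟩
  simp only [Int.cast_neg, Int.cast_one, div_one]
  intro h3
  exact hs (by linarith)

end

section
variable {K : Type} [Field K] {n m r t : ℕ}

theorem C_unit_mem {R : Type} [CommRing R] {u : Rˣ} {S : Set (ℤ × ℤ)} (w : Rˣ)
    {z : PowerSeries R} : PowerSeries.C (w : R) * z ∈ rat u S ↔ z ∈ rat u S := by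
  constructor
  · intro h
    have h1 := (rat u S).mul_mem (C_mem u S ((w⁻¹ : Rˣ) : R)) h
    rw [← mul_assoc, ← map_mul, Units.inv_mul, map_one, one_mul] at h1
    exact h1
  · intro h
    exact (rat u S).mul_mem (C_mem _ _ _) h

theorem zetaI_off (f : Fin r → MvPolynomial (Fin n) K) (s : ℚ) :
    zetaI f ∈ rat (Lu K) (Off s) ↔ zz f ∈ rat (Lu K) (Off s) := by
  rw [zetaI_eq]
  exact C_unit_mem _

theorem pole_step [CharZero K] (f : Fin r → MvPolynomial (Fin n) K) (j₀ : Fin r)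
    (u v : MvPolynomial (Fin n) K) (hu : constantCoeff u = 0) {s : ℚ} (h0 : s ≠ 0) (h1 : s ≠ 1) :
    zetaI f ∈ rat (Lu K) (Off s) ↔ zetaI (stI f j₀ u v) ∈ rat (Lu K) (Off (s - 1)) := by
  obtain ⟨c, hc⟩ := zz_stI f j₀ u v hu
  rw [zetaI_off, zetaI_off]
  exact ⟨off_back hc h0, off_step hc h1⟩

end

end Pool.Agent.J6H85.CI
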