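import Pool.Agent.N101.CB.StmI

/-!
# The reduction of an ideal to a linear section of the graph of a monomial map
-/

set_option autoImplicit false

namespace Pool.Agent.J6H85.CI

open MvPolynomial
open Pool.Agent.N101.CB (stI)

/-- the weight of an exponent -/
def wt {n : ℕ} (m : Fin n →₀ ℕ) : ℕ := ((∑ i, m i) - 1) + ∑ i, (m i - 1)

/-- an exponent in the new variables -/
noncomputable def G {n : ℕ} (m : Fin n →₀ ℕ) (p : ℕ) : Fin (n + 1) →₀ ℕ :=
  m.mapDomain Fin.castSucc + Finsupp.single (Fin.last n) p

theorem neC {n : ℕ} (i : Fin n) : Fin.last n ≠ Fin.castSucc i := (Fin.castSucc_lt_last i).ne'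

theorem E_c {n : ℕ} (m : Fin n →₀ ℕ) (i : Fin n) : m.mapDomain Fin.castSucc (Fin.castSucc i) = m i :=
  Finsupp.mapDomain_apply (Fin.castSucc_injective n) _ _

theorem E_n {n : ℕ} (m : Fin n →₀ ℕ) : m.mapDomain Fin.castSucc (Fin.last n) = 0 := by
  refine Finsupp.mapDomain_of_notMem_range _ _ ?_
  rintro ⟨i, hi⟩
  exact neC i hi.symm

theorem G_c {n : ℕ} (m : Fin n →₀ ℕ) (p : ℕ) (i : Fin n) : G m p (Fin.castSucc i) = m i := by
  unfold G
  rw [Finsupp.add_apply, E_c, Finsupp.single_apply, if_neg (neC i), add_zero]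

theorem G_0 {n : ℕ} (m : Fin n →₀ ℕ) (p : ℕ) : G m p (Fin.last n) = p := by
  unfold G
  rw [Finsupp.add_apply, E_n, Finsupp.single_apply, if_pos rfl, zero_add]

theorem G_zero {n : ℕ} (m : Fin n →₀ ℕ) : G m 0 = m.mapDomain Fin.castSucc := by
  unfold G
  rw [Finsupp.single_zero, add_zero]

theorem G_inj {n : ℕ} : Function.Injective (fun m : Fin n →₀ ℕ => G m 0) := by
  intro a b h
  simp only [G_zero] at h
  exact Finsupp.mapDomain_injective (Fin.castSucc_injective n) h

theorem wt_G {n : ℕ} (m : Fin n →₀ ℕ) (p : ℕ) :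
    wt (G m p) = ((∑ i, m i) + p - 1) + (∑ i, (m i - 1) + (p - 1)) := by
  unfold wt
  rw [Fin.sum_univ_castSucc, Fin.sum_univ_castSucc]
  simp only [G_c, G_0]

theorem wt_G0 {n : ℕ} (m : Fin n →₀ ℕ) : wt (G m 0) = wt m := by
  rw [wt_G]; rfl

/-- the choice of the divisor -/
theorem choice {n : ℕ} (m : Fin n →₀ ℕ) (h : wt m ≠ 0) : ∃ a : Fin n →₀ ℕ, a ≤ m ∧ a ≠ 0 ∧
    (∀ i, a i ≤ 1) ∧ ∑ i, a i ≤ 2 ∧ wt (G (m - a) 1) < wt m := by
  classical
  have hsm : 2 ≤ ∑ i, m i := by
    by_contra hlt
    apply h
    have h1 : ∑ i, (m i - 1) = 0 := by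
      refine Finset.sum_eq_zero fun i _ => ?_
      have : m i ≤ ∑ i, m i := Finset.single_le_sum (f := fun i => m i)
        (fun i _ => Nat.zero_le _) (Finset.mem_univ i)
      omega
    unfold wt
    omega
  by_cases h2 : ∃ i j, i ≠ j ∧ m i ≠ 0 ∧ m j ≠ 0
  · obtain ⟨i, j, hij, hi, hj⟩ := h2
    have hav : ∀ k, (Finsupp.single i 1 + Finsupp.single j 1 : Fin n →₀ ℕ) k ≤ m k := by
      intro k
      rw [Finsupp.add_apply, Finsupp.single_apply, Finsupp.single_apply]
      by_cases hk : i = k
      · subst hk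
        rw [if_pos rfl, if_neg hij.symm]
        omega
      · rw [if_neg hk]
        split_ifs with hk2
        · subst hk2; omega
        · omega
    have hsum : ∑ k, (Finsupp.single i 1 + Finsupp.single j 1 : Fin n →₀ ℕ) k = 2 := by
      simp only [Finsupp.add_apply]
      rw [Finset.sum_add_distrib]
      simp [Finsupp.single_apply]
    have e1 : ∑ k, (m - (Finsupp.single i 1 + Finsupp.single j 1) : Fin n →₀ ℕ) k +
        ∑ k, (Finsupp.single i 1 + Finsupp.single j 1 : Fin n →₀ ℕ) k = ∑ k, m k := by
      rw [← Finset.sum_add_distrib]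
      refine Finset.sum_congr rfl fun k _ => ?_
      have := hav k
      rw [Finsupp.tsub_apply]; omega
    rw [hsum] at e1
    have e2 : ∑ k, ((m - (Finsupp.single i 1 + Finsupp.single j 1) : Fin n →₀ ℕ) k - 1) ≤
        ∑ k, (m k - 1) := by
      refine Finset.sum_le_sum fun k _ => ?_
      rw [Finsupp.tsub_apply]
      omega
    refine ⟨Finsupp.single i 1 + Finsupp.single j 1, hav, ?_, ?_, hsum.le, ?_⟩
    · intro h4
      rw [h4] at hsum
      simp at hsum
    · intro k
      rw [Finsupp.add_apply, Finsupp.single_apply, Finsupp.single_apply]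
      by_cases hk : i = k
      · subst hk
        rw [if_pos rfl, if_neg hij.symm, add_zero]
      · rw [if_neg hk]
        split_ifs <;> omega
    · rw [wt_G]
      unfold wt
      omega
  · push Not at h2
    obtain ⟨i, hi⟩ : ∃ i, m i ≠ 0 := by
      by_contra hne
      push Not at hne
      have : ∑ i, m i = 0 := Finset.sum_eq_zero fun i _ => hne i
      omega
    have hmi : ∑ k, m k = m i := Finset.sum_eq_single i (fun k _ hk => by
      by_contra hne
      exact hne (h2 i k (Ne.symm hk) hi)) (fun h => absurd (Finset.mem_univ _) h)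
    have hle : Finsupp.single i 1 ≤ m := by
      rw [Finsupp.single_le_iff]; omega
    have hsum : ∑ j, (Finsupp.single i 1 : Fin n →₀ ℕ) j = 1 := by
      simp [Finsupp.single_apply]
    have e1 : ∑ j, (m - Finsupp.single i 1 : Fin n →₀ ℕ) j +
        ∑ j, (Finsupp.single i 1 : Fin n →₀ ℕ) j = ∑ j, m j := by
      rw [← Finset.sum_add_distrib]
      refine Finset.sum_congr rfl fun j _ => ?_
      have := hle j
      rw [Finsupp.tsub_apply]; omega
    rw [hsum] at e1
    have e2 : ∑ j, ((m - Finsupp.single i 1 : Fin n →₀ ℕ) j - 1) < ∑ j, (m j - 1) := by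
      refine Finset.sum_lt_sum (fun j _ => ?_) ⟨i, Finset.mem_univ _, ?_⟩
      · rw [Finsupp.tsub_apply]; omega
      · rw [Finsupp.tsub_apply, Finsupp.single_eq_same]; omega
    refine ⟨Finsupp.single i 1, hle, ?_, ?_, ?_, ?_⟩
    · intro h3
      have := DFunLike.congr_fun h3 i
      rw [Finsupp.single_eq_same] at this
      simp at this
    · intro j
      rw [Finsupp.single_apply]
      split_ifs <;> omega
    · omega
    · rw [wt_G]
      unfold wt
      omega

/-- the total weight of a support -/
def W {n : ℕ} (A : Finset (Fin n →₀ ℕ)) : ℕ := ∑ m ∈ A, wt m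

theorem W_mono {n : ℕ} {A B : Finset (Fin n →₀ ℕ)} (h : A ⊆ B) : W A ≤ W B :=
  Finset.sum_le_sum_of_subset h

theorem W_union {n : ℕ} (A B : Finset (Fin n →₀ ℕ)) : W (A ∪ B) ≤ W A + W B := by
  classical
  unfold W
  have := Finset.sum_union_inter (s₁ := A) (s₂ := B) (f := fun m => wt m)
  omega

theorem W_image {n : ℕ} (A : Finset (Fin n →₀ ℕ)) : W (A.image fun m => G m 0) = W A := by
  classical
  unfold W
  rw [Finset.sum_image (fun a _ b _ h => G_inj h)]
  simp only [wt_G0]

theorem W_erase {n : ℕ} (A : Finset (Fin n →₀ ℕ)) (m : Fin n →₀ ℕ) (hm : m ∈ A) :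
    W (A.erase m) + wt m = W A := by
  classical
  unfold W
  exact Finset.sum_erase_add _ _ hm

section
variable {K : Type} [Field K] {n r : ℕ}

theorem supp_ren (f : MvPolynomial (Fin n) K) :
    (rename Fin.castSucc f).support = f.support.image fun m => G m 0 := by
  classical
  rw [support_rename_of_injective (Fin.castSucc_injective n)]
  refine Finset.image_congr fun m _ => ?_
  exact (G_zero m).symm

/-- the new generator, where a monomial is replaced -/
theorem supp_new (f : MvPolynomial (Fin n) K) (m a : Fin n →₀ ℕ) (ham : a ≤ m) :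
    (rename Fin.castSucc f + rename Fin.castSucc (monomial (m - a) (coeff m f)) *
      (X (Fin.last n) - rename Fin.castSucc (monomial a 1))).support ⊆
      ((f.support.erase m).image fun m => G m 0) ∪ {G (m - a) 1} := by
  classical
  have key : rename Fin.castSucc f + rename Fin.castSucc (monomial (m - a) (coeff m f)) *
      (X (Fin.last n) - rename Fin.castSucc (monomial a (1 : K))) =
      rename Fin.castSucc (f - monomial m (coeff m f)) +
        monomial (G (m - a) 1) (coeff m f) := by
    have h3 : (monomial (G (m - a) 1) (coeff m f) : MvPolynomial (Fin (n + 1)) K) =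
        rename Fin.castSucc (monomial (m - a) (coeff m f)) * X (Fin.last n) := by
      unfold G
      rw [rename_monomial, X, monomial_mul, mul_one]
    have h4 : rename Fin.castSucc (monomial m (coeff m f)) =
        rename Fin.castSucc (monomial (m - a) (coeff m f)) *
          rename Fin.castSucc (monomial a (1 : K)) := by
      rw [← map_mul, monomial_mul, mul_one, tsub_add_cancel_of_le ham]
    rw [h3, map_sub, h4]
    ring
  rw [key]
  refine (support_add).trans (Finset.union_subset_union ?_ support_monomial_subset)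
  rw [supp_ren]
  refine Finset.image_subset_image ?_
  intro d hd
  rw [Finset.mem_erase]
  rw [mem_support_iff, coeff_sub, coeff_monomial] at hd
  by_cases h : m = d
  · subst h
    rw [if_pos rfl, sub_self] at hd
    exact absurd rfl hd
  · rw [if_neg h, sub_zero] at hd
    exact ⟨fun h' => h h'.symm, mem_support_iff.2 hd⟩

/-- `g = x_l - x ^ a`, `a` squarefree of degree one or two, in variables before `x_l` -/
def Bin (l : ℕ) (g : MvPolynomial (Fin n) K) : Prop :=
  ∃ (k : Fin n) (a : Fin n →₀ ℕ), (k : ℕ) = l ∧ a ≠ 0 ∧ (∀ i, a i ≤ 1) ∧ ∑ i, a i ≤ 2 ∧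
    (∀ i, a i ≠ 0 → i < k) ∧ g = X k - monomial a 1

theorem Bin.ren {l : ℕ} {g : MvPolynomial (Fin n) K} (h : Bin l g) :
    Bin l (rename Fin.castSucc g) := by
  obtain ⟨k, a, h1, h2, h3, h4, h5, h6⟩ := h
  refine ⟨Fin.castSucc k, G a 0, ?_, ?_, ?_, ?_, ?_, ?_⟩
  · rw [Fin.val_castSucc, h1]
  · intro h7
    apply h2
    ext i
    have := DFunLike.congr_fun h7 (Fin.castSucc i)
    rw [G_c] at this
    exact this
  · intro i
    refine Fin.lastCases ?_ (fun i => ?_) i
    · rw [G_0]; omega
    · rw [G_c]; exact h3 i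
  · rw [Fin.sum_univ_castSucc]
    simp only [G_c, G_0]
    omega
  · intro i
    refine Fin.lastCases ?_ (fun i => ?_) i
    · rw [G_0]
      intro h7
      exact absurd rfl h7
    · rw [G_c]
      intro h7
      exact Fin.castSucc_lt_castSucc_iff.2 (h5 i h7)
  · rw [h6, map_sub, rename_X, rename_monomial, G_zero]

theorem Bin.new {a : Fin n →₀ ℕ} (h2 : a ≠ 0) (h3 : ∀ i, a i ≤ 1) (h4 : ∑ i, a i ≤ 2) :
    Bin n (X (Fin.last n) - rename Fin.castSucc (monomial a (1 : K))) := by
  refine ⟨Fin.last n, G a 0, rfl, ?_, ?_, ?_, ?_, ?_⟩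
  · intro h7
    apply h2
    ext i
    have := DFunLike.congr_fun h7 (Fin.castSucc i)
    rw [G_c] at this
    exact this
  · intro i
    refine Fin.lastCases ?_ (fun i => ?_) i
    · rw [G_0]; omega
    · rw [G_c]; exact h3 i
  · rw [Fin.sum_univ_castSucc]
    simp only [G_c, G_0]
    omega
  · intro i
    refine Fin.lastCases ?_ (fun i => ?_) i
    · rw [G_0]
      intro h7
      exact absurd rfl h7
    · intro _
      exact Fin.castSucc_lt_last i
  · rw [rename_monomial, G_zero]

/-- The generators with the numbers `j ≥ r` are `x_l - x ^ a` with `l + r = n + j`. -/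
def Tail {m t : ℕ} (r n : ℕ) (f : Fin t → MvPolynomial (Fin m) K) : Prop :=
  ∀ j : Fin t, r ≤ (j : ℕ) → ∃ l : ℕ, l + r = n + j ∧ Bin l (f j)

/-- the weight of the first `r` generators -/
def Wh {m t : ℕ} (r : ℕ) (f : Fin t → MvPolynomial (Fin m) K) : ℕ :=
  ∑ j : Fin t, if (j : ℕ) < r then W (f j).support else 0

/-- The first `r` generators have degree at most one, and the others are `x_l - x ^ a`. -/
def Nf {m t : ℕ} (r n : ℕ) (f : Fin t → MvPolynomial (Fin m) K) : Prop :=
  (∀ j : Fin t, (j : ℕ) < r → (f j).totalDegree ≤ 1) ∧ Tail r n f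

end

/-- **The reduction.** -/
theorem chain {K : Type} [Field K]
    (C : ∀ {n t m s : ℕ}, (Fin t → MvPolynomial (Fin n) K) → (Fin s → MvPolynomial (Fin m) K) →
      ℕ → Prop)
    (hrefl : ∀ {n t : ℕ} (f : Fin t → MvPolynomial (Fin n) K), C f f 0)
    (hstep : ∀ {n t m s : ℕ} (f : Fin t → MvPolynomial (Fin n) K) (j₀ : Fin t)
      (u v : MvPolynomial (Fin n) K) (F : Fin s → MvPolynomial (Fin m) K) (κ : ℕ),
      constantCoeff u = 0 → C (stI f j₀ u v) F κ → C f F (κ + 1)) (r n : ℕ) :
    ∀ (N : ℕ) {m t : ℕ} (f : Fin t → MvPolynomial (Fin m) K), r ≤ t → m + r = n + t →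
      Tail r n f → Wh r f ≤ N → ∃ (κ m' t' : ℕ) (F : Fin t' → MvPolynomial (Fin m') K),
        m' = m + κ ∧ t' = t + κ ∧ Nf r n F ∧ C f F κ := by
  classical
  intro N
  induction N using Nat.strong_induction_on with
  | _ N ih =>
    intro m t f hrt hmt hT hW
    by_cases h0 : ∃ j : Fin t, (j : ℕ) < r ∧ ∃ e ∈ (f j).support, wt e ≠ 0
    · obtain ⟨j₀, hj₀, e, he, hwe⟩ := h0
      obtain ⟨a, hae, ha0, ha1, ha2, hwt⟩ := choice e hwe
      set u : MvPolynomial (Fin m) K := monomial a 1 with hu
      set v : MvPolynomial (Fin m) K := monomial (e - a) (coeff e (f j₀)) with hv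
      have hcs : ∀ j : Fin t, stI f j₀ u v (Fin.castSucc j) = rename Fin.castSucc (f j) +
          (if j = j₀ then rename Fin.castSucc v *
            (X (Fin.last m) - rename Fin.castSucc u) else 0) := by
        intro j
        unfold stI
        rw [Fin.snoc_castSucc]
      have hls : stI f j₀ u v (Fin.last t) = X (Fin.last m) - rename Fin.castSucc u := by
        unfold stI
        rw [Fin.snoc_last]
      have hT' : Tail r n (stI f j₀ u v) := by
        intro j
        refine Fin.lastCases ?_ (fun j => ?_) j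
        · intro _
          refine ⟨m, ?_, ?_⟩
          · rw [Fin.val_last]; exact hmt
          · rw [hls, hu]
            exact Bin.new ha0 ha1 ha2
        · intro hj
          rw [Fin.val_castSucc] at hj
          obtain ⟨l, h1, h2⟩ := hT j hj
          refine ⟨l, ?_, ?_⟩
          · rw [Fin.val_castSucc]; exact h1
          · rw [hcs, if_neg, add_zero]
            · exact h2.ren
            · rintro rfl
              omega
      have hW' : Wh r (stI f j₀ u v) < N := by
        refine lt_of_lt_of_le ?_ hW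
        have e1 : Wh r (stI f j₀ u v) = ∑ j : Fin t, if (j : ℕ) < r then
            W (stI f j₀ u v (Fin.castSucc j)).support else 0 := by
          unfold Wh
          rw [Fin.sum_univ_castSucc]
          simp only [Fin.val_castSucc, Fin.val_last]
          rw [if_neg (by omega), add_zero]
        rw [e1]
        unfold Wh
        refine Finset.sum_lt_sum (fun j _ => ?_) ⟨j₀, Finset.mem_univ _, ?_⟩
        · by_cases hjr : (j : ℕ) < r
          · rw [if_pos hjr, if_pos hjr, hcs]
            by_cases hj : j = j₀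
            · subst hj
              rw [if_pos rfl]
              refine (W_mono (supp_new (f j) e a hae)).trans ((W_union _ _).trans ?_)
              rw [W_image]
              have h1 := W_erase (f j).support e he
              have h2 : W ({G (e - a) 1} : Finset (Fin (m + 1) →₀ ℕ)) = wt (G (e - a) 1) := by
                unfold W
                rw [Finset.sum_singleton]
              omega
            · rw [if_neg hj, add_zero, supp_ren, W_image]
          · rw [if_neg hjr, if_neg hjr]
        · rw [if_pos hj₀, if_pos hj₀, hcs, if_pos rfl]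
          refine lt_of_le_of_lt ((W_mono (supp_new (f j₀) e a hae)).trans (W_union _ _)) ?_
          rw [W_image]
          have h1 := W_erase (f j₀).support e he
          have h2 : W ({G (e - a) 1} : Finset (Fin (m + 1) →₀ ℕ)) = wt (G (e - a) 1) := by
            unfold W
            rw [Finset.sum_singleton]
          omega
      obtain ⟨κ, m', t', F, h1, h2, h3, h4⟩ := ih _ hW' (stI f j₀ u v) (by omega) (by omega) hT'
        le_rfl
      refine ⟨κ + 1, m', t', F, by omega, by omega, h3, hstep f j₀ u v F κ ?_ h4⟩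
      rw [hu, constantCoeff_monomial, if_neg ha0]
    · refine ⟨0, m, t, f, rfl, rfl, ⟨fun j hj => ?_, hT⟩, hrefl f⟩
      refine Finset.sup_le fun e he => ?_
      have h1 : wt e = 0 := by
        by_contra h2
        exact h0 ⟨j, hj, e, he, h2⟩
      have h2 : (e.sum fun _ x => x) = ∑ i, e i := Finsupp.sum_fintype _ _ fun _ => rfl
      unfold wt at h1
      have h3 : (e.sum fun _ x => x) ≤ 1 := by
        rw [h2]
        omega
      exact h3

end Pool.Agent.J6H85.CI
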