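import Pool.Agent.J6H85.CI.Bfn
import Pool.Agent.J6H85.CI.Pol
import Pool.Agent.J6H85.CI.Red

/-!
# The step for `∑ y_j f_j`, and the assembly
-/

set_option autoImplicit false

namespace Pool.Agent.J6H85.CI

open MvPolynomial
open Pool.Agent.H628R4.TP (weylS IsLocalBFunction)
open Pool.Agent.W749.JI (gpol IsLocalBIdeal zetaI)
open Pool.Agent.N101.CB (stI stp)
open Pool.Agent.W428.MOT
open Pool.Agent.J6H85.CU

/-- the variables `x, y, y', w` in the order `x, w, y, y'` -/
def pv (n r : ℕ) : Fin (n + r + 2) ≃ Fin (n + 1 + (r + 1)) where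
  toFun x := ⟨if (x : ℕ) < n then x else if (x : ℕ) = n + r + 1 then n else x + 1, by
    have := x.2
    split_ifs <;> omega⟩
  invFun y := ⟨if (y : ℕ) < n then y else if (y : ℕ) = n then n + r + 1 else y - 1, by
    have := y.2
    split_ifs <;> omega⟩
  left_inv x := by
    have := x.2
    ext
    simp only
    split_ifs <;> omega
  right_inv y := by
    have := y.2
    ext
    simp only
    split_ifs <;> omega

theorem pv_x {n r : ℕ} (i : Fin n) :
    pv n r (Fin.castAdd 2 (Fin.castAdd r i)) = Fin.castAdd (r + 1) (Fin.castSucc i) := by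
  have := i.2
  ext
  simp only [pv, Equiv.coe_fn_mk, Fin.val_castAdd, Fin.val_castSucc]
  split_ifs <;> omega

theorem pv_y {n r : ℕ} (j : Fin r) :
    pv n r (Fin.castAdd 2 (Fin.natAdd n j)) = Fin.natAdd (n + 1) (Fin.castSucc j) := by
  have := j.2
  ext
  simp only [pv, Equiv.coe_fn_mk, Fin.val_castAdd, Fin.val_castSucc, Fin.val_natAdd]
  split_ifs <;> omega

theorem pv_y' {n r : ℕ} :
    pv n r (Fin.natAdd (n + r) 0) = Fin.natAdd (n + 1) (Fin.last r) := by
  ext
  simp only [pv, Equiv.coe_fn_mk, Fin.val_last, Fin.val_natAdd, Fin.val_zero]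
  split_ifs
  all_goals omega

theorem pv_w {n r : ℕ} :
    pv n r (Fin.natAdd (n + r) 1) = Fin.castAdd (r + 1) (Fin.last n) := by
  ext
  simp only [pv, Equiv.coe_fn_mk, Fin.val_last, Fin.val_natAdd, Fin.val_castAdd, Fin.val_one]
  split_ifs <;> omega

/-- **The step.** -/
theorem gpol_stI {n r : ℕ} (f : Fin r → MvPolynomial (Fin n) ℂ) (j₀ : Fin r)
    (u v : MvPolynomial (Fin n) ℂ) :
    rename (pv n r) (stp (gpol f) (rename (Fin.castAdd r) u)
      (X (Fin.natAdd n j₀) * rename (Fin.castAdd r) v)) = gpol (stI f j₀ u v) := by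
  have hx : (⇑(pv n r) ∘ Fin.castAdd 2 ∘ Fin.castAdd r) = Fin.castAdd (r + 1) ∘ Fin.castSucc := by
    funext i
    exact pv_x i
  unfold stp gpol
  rw [Fin.sum_univ_castSucc]
  simp only [stI_castSucc, stI_last, map_add, map_mul, map_sub, rename_X, rename_rename, map_sum,
    pv_y, pv_y', pv_w, hx, mul_add, Finset.sum_add_distrib]
  have h1 : ∑ j : Fin r, X (Fin.natAdd (n + 1) (Fin.castSucc j)) *
      rename (Fin.castAdd (r + 1)) (if j = j₀ then rename Fin.castSucc v *
        (X (Fin.last n) - rename Fin.castSucc u) else 0) =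
      X (Fin.natAdd (n + 1) (Fin.castSucc j₀)) *
        (rename (Fin.castAdd (r + 1) ∘ Fin.castSucc) v * (X (Fin.castAdd (r + 1) (Fin.last n)) -
          rename (Fin.castAdd (r + 1) ∘ Fin.castSucc) u) :
          MvPolynomial (Fin (n + 1 + (r + 1))) ℂ) := by
    rw [Finset.sum_eq_single j₀]
    · rw [if_pos rfl, map_mul, map_sub, rename_X, rename_rename, rename_rename]
    · intro j _ hj
      rw [if_neg hj, map_zero, mul_zero]
    · intro h
      exact absurd (Finset.mem_univ _) h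
  rw [h1]
  ring

theorem lb_step {n r : ℕ} {f : Fin r → MvPolynomial (Fin n) ℂ} (hf : ∃ j, f j ≠ 0) (j₀ : Fin r)
    {u : MvPolynomial (Fin n) ℂ} (v : MvPolynomial (Fin n) ℂ) (hu : constantCoeff u = 0)
    {c : Polynomial ℂ} (h : IsLocalBFunction (gpol f) ((Polynomial.X + 1) * c)) :
    IsLocalBFunction (gpol (stI f j₀ u v))
      ((Polynomial.X + 1) * c.comp (Polynomial.X + 1)) := by
  rw [← gpol_stI]
  refine lb_rename _ ((Pool.Agent.N101.CB.bl _ _ _ (gpol_ne hf) (gpol_const f) ?_ ?_ _ h).2 c rfl)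
  · rw [constantCoeff_rename, hu]
  · rw [map_mul, constantCoeff_X, zero_mul]

theorem stI_ne {n r : ℕ} {K : Type} [Field K] (f : Fin r → MvPolynomial (Fin n) K) (j₀ : Fin r)
    (u v : MvPolynomial (Fin n) K) : ∃ j, stI f j₀ u v j ≠ 0 := by
  refine ⟨Fin.last r, ?_⟩
  rw [stI_last]
  intro h
  have h1 := congrArg (sb u) h
  rw [map_sub, sb_w, sb_rename, add_sub_cancel_right, map_zero] at h1
  exact X_ne_zero _ h1

/-- **The relations between the ideal `(f_j)` and the ideal `(F_j)`.** -/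
structure Rl {n m r t : ℕ} (f : Fin r → MvPolynomial (Fin n) ℂ)
    (F : Fin t → MvPolynomial (Fin m) ℂ) (κ : ℕ) : Prop where
  ne : (∃ j, f j ≠ 0) → ∃ j, F j ≠ 0
  lb : (∃ j, f j ≠ 0) → ∀ c : Polynomial ℂ,
    IsLocalBFunction (gpol f) ((Polynomial.X + 1) * c) →
    IsLocalBFunction (gpol F) ((Polynomial.X + 1) * c.comp (Polynomial.X + Polynomial.C (κ : ℂ)))
  zero : κ = 0 → ∀ b : Polynomial ℂ, IsLocalBIdeal f b → IsLocalBIdeal F b
  pole : ∀ s : ℚ, (∀ i : ℕ, s ≠ i) →
    (zetaI f ∈ rat (Lu ℂ) (Off s) ↔ zetaI F ∈ rat (Lu ℂ) (Off (s - κ)))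

theorem Rl.refl {n r : ℕ} (f : Fin r → MvPolynomial (Fin n) ℂ) : Rl f f 0 where
  ne h := h
  lb _ c h := by
    rw [Nat.cast_zero, map_zero, add_zero, Polynomial.comp_X]
    exact h
  zero _ _ h := h
  pole s _ := by rw [Nat.cast_zero, sub_zero]

theorem Rl.step {n m r t : ℕ} (f : Fin r → MvPolynomial (Fin n) ℂ) (j₀ : Fin r)
    (u v : MvPolynomial (Fin n) ℂ) (F : Fin t → MvPolynomial (Fin m) ℂ) (κ : ℕ)
    (hu : constantCoeff u = 0) (h : Rl (stI f j₀ u v) F κ) : Rl f F (κ + 1) where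
  ne _ := h.ne (stI_ne f j₀ u v)
  lb hf c hc := by
    have h1 := h.lb (stI_ne f j₀ u v) _ (lb_step hf j₀ v hu hc)
    have e : (c.comp (Polynomial.X + 1)).comp (Polynomial.X + Polynomial.C (κ : ℂ)) =
        c.comp (Polynomial.X + Polynomial.C ((κ + 1 : ℕ) : ℂ)) := by
      rw [Polynomial.comp_assoc, Polynomial.add_comp, Polynomial.X_comp, Polynomial.one_comp]
      push_cast
      rw [map_add, map_one, add_assoc]
    rw [e] at h1
    exact h1
  zero h0 := absurd h0 (Nat.succ_ne_zero κ)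
  pole s hs := by
    have h0 : s ≠ 0 := by
      have := hs 0
      rwa [Nat.cast_zero] at this
    have h1 : s ≠ 1 := by
      have := hs 1
      rwa [Nat.cast_one] at this
    rw [pole_step f j₀ u v hu h0 h1, h.pole (s - 1)]
    · have e : s - 1 - (κ : ℚ) = s - ((κ + 1 : ℕ) : ℚ) := by
        push_cast
        ring
      rw [e]
    · intro i hi
      apply hs (i + 1)
      push_cast
      linarith

/-- **Every ideal is related to a linear section of the graph of a monomial map.** -/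
theorem exists_section {n r : ℕ} (f : Fin r → MvPolynomial (Fin n) ℂ) :
    ∃ (κ : ℕ) (F : Fin (r + κ) → MvPolynomial (Fin (n + κ)) ℂ), Nf r n F ∧ Rl f F κ := by
  obtain ⟨κ, m, t, F, h1, h2, h3, h4⟩ := chain (K := ℂ) (fun f F κ => Rl f F κ)
    (fun f => Rl.refl f) (fun f j₀ u v F κ hu h => Rl.step f j₀ u v F κ hu h) r n (Wh r f) f le_rfl
    rfl (fun j hj => absurd j.2 (not_lt.2 hj)) le_rfl
  subst h1
  subst h2
  exact ⟨κ, F, h3, h4⟩

/-- the functional equations -/
theorem Rl.fe {n m r t : ℕ} {f : Fin r → MvPolynomial (Fin n) ℂ}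
    {F : Fin t → MvPolynomial (Fin m) ℂ} {κ : ℕ} (h : Rl f F κ) (hf : ∃ j, f j ≠ 0)
    {b : Polynomial ℂ} (hb : IsLocalBIdeal f b) : IsLocalBIdeal F (if κ = 0 then b else
      (Polynomial.X + 1) * b.comp (Polynomial.X + Polynomial.C (κ : ℂ))) := by
  split_ifs with h0
  · exact h.zero h0 b hb
  · exact ideal_of_lb F (h.ne hf) _ (h.lb hf b (lb_of_ideal f b hb))

/-- squarefree monomials of degree one or two -/
theorem bin_form {m : ℕ} {l : ℕ} {g : MvPolynomial (Fin m) ℂ} (h : Bin l g) :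
    ∃ k i : Fin m, (k : ℕ) = l ∧ i < k ∧ (g = X k - X i ∨ ∃ j, j < i ∧ g = X k - X i * X j) := by
  classical
  obtain ⟨k, a, h1, h2, h3, h4, h5, h6⟩ := h
  have hex : ∃ i, a i ≠ 0 := by
    by_contra hne
    push Not at hne
    exact h2 (Finsupp.ext hne)
  obtain ⟨i, hi⟩ := hex
  have hi1 : a i = 1 := by have := h3 i; omega
  by_cases hj : ∃ j, j ≠ i ∧ a j ≠ 0
  · obtain ⟨j, hji, hj⟩ := hj
    have hj1 : a j = 1 := by have := h3 j; omega
    have hrest : ∀ q, q ≠ i → q ≠ j → a q = 0 := by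
      intro q hqi hqj
      have e1 := Finset.add_sum_erase Finset.univ (fun x => a x) (Finset.mem_univ i)
      have e2 := Finset.add_sum_erase (Finset.univ.erase i) (fun x => a x)
        (Finset.mem_erase.2 ⟨hji, Finset.mem_univ j⟩)
      have e3 : a q ≤ ∑ x ∈ (Finset.univ.erase i).erase j, a x :=
        Finset.single_le_sum (f := fun x => a x) (fun _ _ => Nat.zero_le _)
          (Finset.mem_erase.2 ⟨hqj, Finset.mem_erase.2 ⟨hqi, Finset.mem_univ q⟩⟩)
      omega
    have ha : a = Finsupp.single i 1 + Finsupp.single j 1 := by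
      ext q
      rw [Finsupp.add_apply, Finsupp.single_apply, Finsupp.single_apply]
      by_cases hqi : i = q
      · subst hqi
        rw [if_pos rfl, if_neg hji, hi1, add_zero]
      · by_cases hqj : j = q
        · subst hqj
          rw [if_neg hqi, if_pos rfl, hj1, zero_add]
        · rw [if_neg hqi, if_neg hqj, hrest q (Ne.symm hqi) (Ne.symm hqj), add_zero]
    have hm : (monomial a 1 : MvPolynomial (Fin m) ℂ) = X i * X j := by
      rw [ha, X, X, monomial_mul, one_mul]
    rcases lt_or_gt_of_ne hji with hlt | hlt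
    · exact ⟨k, i, h1, h5 i hi, Or.inr ⟨j, hlt, by rw [h6, hm]⟩⟩
    · exact ⟨k, j, h1, h5 j hj, Or.inr ⟨i, hlt, by rw [h6, hm, mul_comm]⟩⟩
  · push Not at hj
    have ha : a = Finsupp.single i 1 := by
      ext q
      rw [Finsupp.single_apply]
      by_cases hqi : i = q
      · subst hqi
        rw [if_pos rfl, hi1]
      · rw [if_neg hqi, hj q (Ne.symm hqi)]
    refine ⟨k, i, h1, h5 i hi, Or.inl ?_⟩
    rw [h6, ha]
    rfl

/-- the zero ideal -/
theorem zeta_zero {n r : ℕ} (f : Fin r → MvPolynomial (Fin n) ℂ) (hf : ¬ ∃ j, f j ≠ 0) :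
    zetaI f = 0 := by
  push Not at hf
  have h : zz f = 0 := by
    unfold zz
    ext N
    rw [PowerSeries.coeff_mk, map_zero]
    split_ifs with h0
    · rfl
    · have h1 : Pool.Agent.W749.JI.JetI f N = ∅ := by
        rw [Set.eq_empty_iff_forall_notMem]
        rintro z ⟨-, -, i, h3⟩
        rw [hf i, map_zero, map_zero] at h3
        exact h3 rfl
      obtain ⟨M₀, hM₀⟩ := Pool.Agent.W417.MT.K0.main ℂ
      have h2 : cls (Fin n × Fin (N + 1)) (∅ : Set (Pt ℂ (Fin n × Fin (N + 1)))) = 0 := by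
        rw [← hM₀]
        have := M₀.add (∅ : Set (Pt ℂ (Fin n × Fin (N + 1)))) ∅ Constr.empty Constr.empty
          (Set.disjoint_empty _)
        rw [Set.union_empty] at this
        exact left_eq_add.1 this
      rw [h1, h2, map_zero, zero_mul]
  rw [zetaI_eq, h, mul_zero]

end Pool.Agent.J6H85.CI
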