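import Pool.Agent.J6H85.CU.Rec
import Pool.Agent.N101.CB.StmI
import Pool.Agent.W806.JIJetI
import Pool.Agent.Z864.MS.Three
import Pool.Agent.W417.MT.K0
import Pool.Agent.W417.MT.Free
import Pool.Agent.W63.MTFin

/-!
# The local motivic zeta function of the ideal with one more generator `w - u` in one more variable
-/

set_option autoImplicit false

namespace Pool.Agent.J6H85.CI

open MvPolynomial Pool.Agent.W428.MOT Pool.Agent.W375.MT
open Pool.Agent.W749.JI (JetI zetaI)
open Pool.Agent.W806.JIJetI (GG constr_GG GG_card jet_add)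
open Pool.Agent.Z864.MS (Tm isPF_Tm coeff_Tm coeff_zero_aeval Tm_Tm)
open Pool.Agent.N101.CB (stI exI)
open Pool.Agent.J6H85.CU

section
variable {K : Type} [Field K] {n r : ℕ}

/-- the substitution `w ↦ w + u` -/
noncomputable def sb (u : MvPolynomial (Fin n) K) :
    MvPolynomial (Fin (n + 1)) K →ₐ[K] MvPolynomial (Fin (n + 1)) K :=
  aeval (Fin.snoc (fun i => X (Fin.castSucc i)) (X (Fin.last n) + rename Fin.castSucc u) :
    Fin (n + 1) → MvPolynomial (Fin (n + 1)) K)

theorem sb_X (u : MvPolynomial (Fin n) K) (i : Fin n) :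
    sb u (X (Fin.castSucc i)) = X (Fin.castSucc i) := by
  unfold sb
  rw [aeval_X, Fin.snoc_castSucc]

theorem sb_w (u : MvPolynomial (Fin n) K) :
    sb u (X (Fin.last n)) = X (Fin.last n) + rename Fin.castSucc u := by
  unfold sb
  rw [aeval_X, Fin.snoc_last]

theorem sb_rename (u g : MvPolynomial (Fin n) K) :
    sb u (rename Fin.castSucc g) = rename Fin.castSucc g := by
  have h : (sb u).comp (rename Fin.castSucc) =
      (rename Fin.castSucc : MvPolynomial (Fin n) K →ₐ[K] MvPolynomial (Fin (n + 1)) K) := by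
    apply MvPolynomial.algHom_ext
    intro i
    rw [AlgHom.comp_apply, rename_X, sb_X]
  exact DFunLike.congr_fun h g

theorem sb_sb (u v : MvPolynomial (Fin n) K) (huv : v + u = 0) (g : MvPolynomial (Fin (n + 1)) K) :
    sb u (sb v g) = g := by
  have h : (sb u).comp (sb v) = AlgHom.id K _ := by
    apply MvPolynomial.algHom_ext
    intro i
    rw [AlgHom.comp_apply, AlgHom.id_apply]
    refine Fin.lastCases ?_ (fun i => ?_) i
    · rw [sb_w, map_add, sb_w, sb_rename, add_assoc, ← map_add, add_comm u, huv, map_zero, add_zero]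
    · rw [sb_X, sb_X]
  exact DFunLike.congr_fun h g

theorem stI_castSucc (f : Fin r → MvPolynomial (Fin n) K) (j₀ : Fin r)
    (u v : MvPolynomial (Fin n) K) (j : Fin r) :
    stI f j₀ u v (Fin.castSucc j) = rename Fin.castSucc (f j) +
      (if j = j₀ then rename Fin.castSucc v *
        (X (Fin.last n) - rename Fin.castSucc u) else 0) := by
  unfold stI
  rw [Fin.snoc_castSucc]

theorem stI_last (f : Fin r → MvPolynomial (Fin n) K) (j₀ : Fin r)
    (u v : MvPolynomial (Fin n) K) :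
    stI f j₀ u v (Fin.last r) = X (Fin.last n) - rename Fin.castSucc u := by
  unfold stI
  rw [Fin.snoc_last]

theorem exI_castSucc (f : Fin r → MvPolynomial (Fin n) K) (j : Fin r) :
    exI f (Fin.castSucc j) = rename Fin.castSucc (f j) := by
  unfold exI
  rw [Fin.snoc_castSucc]

theorem exI_last (f : Fin r → MvPolynomial (Fin n) K) :
    exI f (Fin.last r) = X (Fin.last n) := by
  unfold exI
  rw [Fin.snoc_last]

/-- the generators `f_j` and `w - u` -/
theorem dvd_stI {S : Type*} [CommRing S] [Algebra K S] (A : MvPolynomial (Fin (n + 1)) K →ₐ[K] S)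
    (p : S) (f : Fin r → MvPolynomial (Fin n) K) (j₀ : Fin r) (u v : MvPolynomial (Fin n) K) :
    (∀ l, p ∣ A (stI f j₀ u v l)) ↔ (∀ j, p ∣ A (rename Fin.castSucc (f j))) ∧
      p ∣ A (X (Fin.last n) - rename Fin.castSucc u) := by
  have key : p ∣ A (X (Fin.last n) - rename Fin.castSucc u) → ∀ j : Fin r,
      p ∣ A (if j = j₀ then rename Fin.castSucc v *
        (X (Fin.last n) - rename Fin.castSucc u) else 0) := by
    intro h j
    split_ifs
    · rw [map_mul]
      exact h.mul_left _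
    · rw [map_zero]
      exact dvd_zero _
  constructor
  · intro h
    have h1 := h (Fin.last r)
    rw [stI_last] at h1
    refine ⟨fun j => ?_, h1⟩
    have h2 := h (Fin.castSucc j)
    rw [stI_castSucc, map_add] at h2
    exact (dvd_add_left (key h1 j)).1 h2
  · rintro ⟨h1, h2⟩ l
    refine Fin.lastCases ?_ (fun j => ?_) l
    · rw [stI_last]; exact h2
    · rw [stI_castSucc, map_add]
      exact dvd_add (h1 j) (key h2 j)

theorem dvd_exI {S : Type*} [CommRing S] [Algebra K S] (A : MvPolynomial (Fin (n + 1)) K →ₐ[K] S)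
    (p : S) (f : Fin r → MvPolynomial (Fin n) K) :
    (∀ l, p ∣ A (exI f l)) ↔ (∀ j, p ∣ A (rename Fin.castSucc (f j))) ∧
      p ∣ A (X (Fin.last n)) := by
  constructor
  · intro h
    have h1 := h (Fin.last r)
    rw [exI_last] at h1
    refine ⟨fun j => ?_, h1⟩
    have h2 := h (Fin.castSucc j)
    rwa [exI_castSucc] at h2
  · rintro ⟨h1, h2⟩ l
    refine Fin.lastCases ?_ (fun j => ?_) l
    · rw [exI_last]; exact h2
    · rw [exI_castSucc]; exact h1 j

theorem aev0 (g : MvPolynomial (Fin n) K) :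
    aeval (fun _ : Fin n => (0 : AlgebraicClosure K)) g =
      algebraMap K (AlgebraicClosure K) (constantCoeff g) := MvPolynomial.aeval_zero' g

/-- membership in terms of divisibility -/
theorem mem_GG {m t : ℕ} (f : Fin t → MvPolynomial (Fin m) K) (N q : ℕ)
    (z : Pt K (Fin m × Fin (N + 1))) :
    z ∈ GG f N q ↔ (∀ i, z (i, 0) = 0) ∧
      ∀ l, (PowerSeries.X : PowerSeries (AlgebraicClosure K)) ^ q ∣ aeval (arc z) (f l) := by
  unfold GG
  rw [Set.mem_ofPred_eq]
  refine and_congr_right fun _ => forall_congr' fun l => ?_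
  rw [PowerSeries.X_pow_dvd_iff]

theorem dvd_Tm (φ : MvPolynomial (Fin n) K →ₐ[K] MvPolynomial (Fin n) K) {N q : ℕ}
    (hq : q ≤ N + 1) (z : Pt K (Fin n × Fin (N + 1))) (g : MvPolynomial (Fin n) K) :
    (PowerSeries.X : PowerSeries (AlgebraicClosure K)) ^ q ∣ aeval (arc (Tm φ N z)) g ↔
      (PowerSeries.X : PowerSeries (AlgebraicClosure K)) ^ q ∣ aeval (arc z) (φ g) := by
  rw [PowerSeries.X_pow_dvd_iff, PowerSeries.X_pow_dvd_iff]
  refine forall_congr' fun j => forall_congr' fun hj => ?_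
  rw [coeff_Tm φ z g j (by omega)]

/-- the origin of the image -/
theorem Tm_zero (φ : MvPolynomial (Fin n) K →ₐ[K] MvPolynomial (Fin n) K) {N : ℕ}
    (z : Pt K (Fin n × Fin (N + 1))) (hφ : ∀ i, constantCoeff (φ (X i)) = 0)
    (hz : ∀ i, z (i, 0) = 0) (i : Fin n) : Tm φ N z (i, 0) = 0 := by
  show PowerSeries.coeff ((0 : Fin (N + 1)) : ℕ) (aeval (arc z) (φ (X i))) = 0
  rw [Fin.val_zero, coeff_zero_aeval]
  simp only [hz]
  rw [aev0, hφ, map_zero]

theorem const_sb {u : MvPolynomial (Fin n) K} (hu : constantCoeff u = 0) (i : Fin (n + 1)) :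
    constantCoeff (sb u (X i)) = 0 := by
  refine Fin.lastCases ?_ (fun i => ?_) i
  · rw [sb_w, map_add, constantCoeff_X, constantCoeff_rename, hu, add_zero]
  · rw [sb_X, constantCoeff_X]

/-- change of the generators and of the variables -/
theorem GG_stI {R : Type} [CommRing R] (M : Meas K R) (f : Fin r → MvPolynomial (Fin n) K)
    (j₀ : Fin r) (u v : MvPolynomial (Fin n) K) (hu : constantCoeff u = 0) {N q : ℕ}
    (hq : q ≤ N + 1) : M.χ _ (GG (stI f j₀ u v) N q) = M.χ _ (GG (exI f) N q) := by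
  have hu' : constantCoeff (-u) = 0 := by rw [map_neg, hu, neg_zero]
  have h1 : ∀ g, sb u (sb (-u) g) = g := fun g => sb_sb u (-u) (neg_add_cancel u) g
  have h2 : ∀ g, sb (-u) (sb u g) = g := fun g => sb_sb (-u) u (add_neg_cancel u) g
  have e1 : sb u (X (Fin.last n) - rename Fin.castSucc u) = X (Fin.last n) := by
    rw [map_sub, sb_w, sb_rename, add_sub_cancel_right]
  have e2 : sb (-u) (X (Fin.last n)) = X (Fin.last n) - rename Fin.castSucc u := by
    rw [sb_w, map_neg, sub_eq_add_neg]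
  refine M.iso _ _ (constr_GG _ N q) (constr_GG _ N q) (Tm (sb (-u)) N) (Tm (sb u) N)
    (regularOn_poly (fun p => isPF_Tm _ p) _) (regularOn_poly (fun p => isPF_Tm _ p) _)
    ?_ ?_ (fun z _ => Tm_Tm _ _ h2 z) (fun z _ => Tm_Tm _ _ h1 z)
  · intro z hz
    rw [mem_GG] at hz ⊢
    refine ⟨Tm_zero _ z (const_sb hu') hz.1, ?_⟩
    have h3 := (dvd_stI (aeval (arc z)) _ f j₀ u v).1 hz.2
    intro l
    rw [dvd_Tm _ hq]
    refine (dvd_exI ((aeval (arc z)).comp (sb (-u))) _ f).2 ⟨fun j => ?_, ?_⟩ l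
    · rw [AlgHom.comp_apply, sb_rename]
      exact h3.1 j
    · rw [AlgHom.comp_apply, e2]
      exact h3.2
  · intro z hz
    rw [mem_GG] at hz ⊢
    refine ⟨Tm_zero _ z (const_sb hu) hz.1, ?_⟩
    have h3 := (dvd_exI (aeval (arc z)) _ f).1 hz.2
    intro l
    rw [dvd_Tm _ hq]
    refine (dvd_stI ((aeval (arc z)).comp (sb u)) _ f j₀ u v).2 ⟨fun j => ?_, ?_⟩ l
    · rw [AlgHom.comp_apply, sb_rename]
      exact h3.1 j
    · rw [AlgHom.comp_apply, e1]
      exact h3.2

/-- the free coordinates of `w` -/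
def Fw (n N q : ℕ) : Finset (Fin (n + 1) × Fin (N + 1)) :=
  Finset.univ.filter fun p => p.1 = Fin.last n ∧ q ≤ (p.2 : ℕ)

theorem mem_Fw {N q : ℕ} (p : Fin (n + 1) × Fin (N + 1)) :
    p ∈ Fw n N q ↔ p.1 = Fin.last n ∧ q ≤ (p.2 : ℕ) := by
  unfold Fw
  rw [Finset.mem_filter]
  exact ⟨fun h => h.2, fun h => ⟨Finset.mem_univ _, h⟩⟩

theorem card_Fw (n N q : ℕ) : (Fw n N q).card = N + 1 - q := by
  have h : Fw n N q = ({Fin.last n} : Finset (Fin (n + 1))) ×ˢ
      (Finset.univ.filter fun j : Fin (N + 1) => q ≤ (j : ℕ)) := by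
    ext p
    rw [mem_Fw, Finset.mem_product, Finset.mem_singleton, Finset.mem_filter]
    exact ⟨fun h => ⟨h.1, Finset.mem_univ _, h.2⟩, fun h => ⟨h.1, h.2.2⟩⟩
  rw [h, Finset.card_product, Finset.card_singleton, one_mul]
  have h2 : (Finset.univ.filter fun j : Fin (N + 1) => q ≤ (j : ℕ)).card =
      (Finset.Ico q (N + 1)).card := by
    rw [← Finset.card_map Fin.valEmbedding]
    congr 1
    ext a
    simp only [Finset.mem_map, Finset.mem_filter, Finset.mem_univ, true_and,
      Fin.valEmbedding_apply, Finset.mem_Ico]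
    constructor
    · rintro ⟨b, hb, rfl⟩
      exact ⟨hb, b.2⟩
    · rintro ⟨h1, h2⟩
      exact ⟨⟨a, h2⟩, h1, rfl⟩
  rw [h2, Nat.card_Ico]

/-- the old coordinates -/
def rsw {N : ℕ} (z : Pt K (Fin (n + 1) × Fin (N + 1))) : Pt K (Fin n × Fin (N + 1)) :=
  fun p => z (Fin.castSucc p.1, p.2)

/-- extension by `w = 0` -/
noncomputable def exw {N : ℕ} (z : Pt K (Fin n × Fin (N + 1))) : Pt K (Fin (n + 1) × Fin (N + 1)) :=
  fun p => if h : (p.1 : ℕ) < n then z (⟨p.1, h⟩, p.2) else 0

theorem exw_c {N : ℕ} (z : Pt K (Fin n × Fin (N + 1))) (i : Fin n) (j : Fin (N + 1)) :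
    exw z (Fin.castSucc i, j) = z (i, j) := by
  unfold exw
  have h : ((Fin.castSucc i : Fin (n + 1)) : ℕ) < n := i.2
  simp only [dif_pos h]
  rfl

theorem exw_l {N : ℕ} (z : Pt K (Fin n × Fin (N + 1))) (j : Fin (N + 1)) :
    exw z (Fin.last n, j) = 0 := by
  unfold exw
  have h : ¬ ((Fin.last n : Fin (n + 1)) : ℕ) < n := by rw [Fin.val_last]; omega
  simp only [dif_neg h]

theorem aeval_rsw {N : ℕ} (z : Pt K (Fin (n + 1) × Fin (N + 1))) (g : MvPolynomial (Fin n) K) :
    aeval (arc z) (rename Fin.castSucc g) = aeval (arc (rsw z)) g := by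
  rw [aeval_rename]
  rfl

/-- the ideal `(f, w)` in terms of the ideal `(f)` -/
theorem mem_exI (f : Fin r → MvPolynomial (Fin n) K) {N q : ℕ} (h1 : 1 ≤ q) (hq : q ≤ N + 1)
    (z : Pt K (Fin (n + 1) × Fin (N + 1))) :
    z ∈ GG (exI f) N q ↔ rsw z ∈ GG f N q ∧ ∀ j : Fin (N + 1), (j : ℕ) < q →
      z (Fin.last n, j) = 0 := by
  rw [mem_GG, mem_GG, dvd_exI]
  simp only [aeval_rsw, aeval_X]
  rw [PowerSeries.X_pow_dvd_iff]
  constructor
  · rintro ⟨g1, g2, g3⟩
    refine ⟨⟨fun i => g1 _, g2⟩, fun j hj => ?_⟩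
    have h := g3 j hj
    rwa [coeff_arc _ _ _ j.2] at h
  · rintro ⟨⟨g1, g2⟩, g3⟩
    refine ⟨fun i => ?_, g2, fun j hj => ?_⟩
    · refine Fin.lastCases ?_ (fun i => ?_) i
      · exact g3 0 (by rw [Fin.val_zero]; omega)
      · exact g1 i
    · rw [coeff_arc _ _ _ (by omega)]
      exact g3 ⟨j, by omega⟩ hj

theorem GG_exI {R : Type} [CommRing R] (M : Meas K R) (f : Fin r → MvPolynomial (Fin n) K)
    {N q : ℕ} (h1 : 1 ≤ q) (hq : q ≤ N + 1) :
    M.χ _ (GG (exI f) N q) = M.χ _ (GG f N q) * M.L ^ (N + 1 - q) := by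
  classical
  have e1 := Pool.Agent.W417.MT.Free.main M (GG (exI f) N q) ∅ (Fw n N q) (fun _ => 0)
    (Finset.disjoint_empty_left _) (constr_GG _ N q) (fun z w h hz => by
      rw [mem_exI f h1 hq] at hz ⊢
      have e : ∀ p, p ∉ Fw n N q → w p = z p := fun p hp => h p (Finset.notMem_empty _) hp
      have e2 : rsw w = rsw z := by
        funext p
        refine e _ ?_
        rw [mem_Fw]
        rintro ⟨h3, -⟩
        exact absurd h3 (Fin.castSucc_lt_last _).ne
      refine ⟨by rw [e2]; exact hz.1, fun j hj => ?_⟩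
      rw [e, hz.2 j hj]
      rw [mem_Fw]
      rintro ⟨-, h3⟩
      simp only at h3
      omega)
  simp only [Finset.notMem_empty, false_implies, implies_true, Set.ofPred_true, Set.inter_univ,
    Finset.empty_union, map_zero, Finset.card_empty, pow_zero, mul_one] at e1
  rw [e1, card_Fw]
  congr 1
  refine M.iso _ _ ((constr_GG _ N q).inter (Constr.ballFinset _ fun p _ =>
    Constr.eqz (IsPF.coord _))) (constr_GG f N q) rsw exw
    (regularOn_poly (fun p => IsPF.coord _) _) (regularOn_poly (fun p => ?_) _) ?_ ?_ ?_ ?_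
  · unfold exw
    by_cases h : (p.1 : ℕ) < n
    · simp only [dif_pos h]
      exact IsPF.coord _
    · simp only [dif_neg h]
      exact IsPF.zero
  · rintro z ⟨hz, -⟩
    exact ((mem_exI f h1 hq z).1 hz).1
  · intro z hz
    have e3 : rsw (exw z) = z := by
      funext p
      exact exw_c z p.1 p.2
    refine ⟨(mem_exI f h1 hq _).2 ⟨by rw [e3]; exact hz, fun j _ => exw_l z j⟩, ?_⟩
    rintro ⟨i, j⟩ hp
    rw [mem_Fw] at hp
    have h3 : i = Fin.last n := hp.1
    rw [h3]
    exact exw_l z j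
  · rintro z ⟨hz, h3⟩
    have h4 := ((mem_exI f h1 hq z).1 hz).2
    funext p
    obtain ⟨i, j⟩ := p
    refine Fin.lastCases ?_ (fun i => ?_) i
    · rw [exw_l]
      by_cases hj : (j : ℕ) < q
      · exact (h4 j hj).symm
      · exact (h3 (Fin.last n, j) ((mem_Fw _).2 ⟨rfl, by simpa using hj⟩)).symm
    · rw [exw_c]
      rfl
  · intro z _
    funext p
    exact exw_c z p.1 p.2

end

/-! ### Power series -/

section
variable {R : Type} [CommRing R]

theorem rel (L Y : R) (h : L * Y = 1) (a : ℕ → R) :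
    (1 - PowerSeries.C Y * PowerSeries.X) * (PowerSeries.C (a 1) -
      PowerSeries.mk fun N => if N = 0 then 0 else Y ^ N * (L * a N - a (N + 1))) =
    (1 - PowerSeries.X) * (PowerSeries.C (a 1) - PowerSeries.rescale Y
      (PowerSeries.mk fun N => if N = 0 then 0 else a N - a (N + 1))) := by
  have hc : ∀ (c : R) (G : PowerSeries R) (N : ℕ), PowerSeries.coeff (N + 1)
      ((1 - PowerSeries.C c * PowerSeries.X) * G) =
      PowerSeries.coeff (N + 1) G - c * PowerSeries.coeff N G := by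
    intro c G N
    rw [sub_mul, one_mul, map_sub, mul_assoc, PowerSeries.coeff_C_mul,
      PowerSeries.coeff_succ_X_mul]
  have hc0 : ∀ (c : R) (G : PowerSeries R), PowerSeries.coeff 0
      ((1 - PowerSeries.C c * PowerSeries.X) * G) = PowerSeries.coeff 0 G := by
    intro c G
    rw [sub_mul, one_mul, map_sub, mul_assoc, PowerSeries.coeff_C_mul,
      PowerSeries.coeff_zero_X_mul, mul_zero, sub_zero]
  have e1 : (1 - PowerSeries.X : PowerSeries R) = 1 - PowerSeries.C 1 * PowerSeries.X := by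
    rw [map_one, one_mul]
  rw [e1]
  ext N
  cases N with
  | zero =>
    rw [hc0, hc0, map_sub, map_sub, PowerSeries.coeff_mk, PowerSeries.coeff_rescale,
      PowerSeries.coeff_mk, if_pos rfl, if_pos rfl, mul_zero]
  | succ N =>
    rw [hc, hc]
    simp only [map_sub, PowerSeries.coeff_mk, PowerSeries.coeff_rescale, PowerSeries.coeff_C]
    cases N with
    | zero =>
      simp only [zero_add, one_ne_zero, if_false, if_true, pow_one]
      linear_combination (-a 1) * h
    | succ N =>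
      simp only [Nat.add_eq_zero_iff, one_ne_zero, and_false, if_false]
      have e2 : Y ^ (N + 1 + 1) * L = Y ^ (N + 1) := by
        rw [pow_succ, mul_assoc, mul_comm Y L, h, mul_one]
      have e3 : Y * Y ^ (N + 1) * L = Y ^ (N + 1) := by
        rw [← pow_succ']
        exact e2
      linear_combination (-a (N + 1 + 1)) * e2 + (a (N + 1)) * e3

end

/-! ### The relation -/

section
variable {K : Type} [Field K] {n r : ℕ}

/-- the classes of the jets, normalised -/
noncomputable def aN {R : Type} [CommRing R] (M : Meas K R) (Y : R)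
    (f : Fin r → MvPolynomial (Fin n) K) (N : ℕ) : R := M.χ _ (GG f N N) * Y ^ (n * N)

theorem aN_succ {R : Type} [CommRing R] (M : Meas K R) {Y : R} (hY : M.L * Y = 1)
    (f : Fin r → MvPolynomial (Fin n) K) (N : ℕ) :
    M.χ _ (GG f N (N + 1)) * Y ^ (n * N) = aN M Y f (N + 1) := by
  unfold aN
  rw [GG_card Pool.Agent.W417.MT.Free.main M f N (N + 1) (N + 1) (Nat.le_succ N) le_rfl]
  have e : n * (N + 1) = n * N + n := Nat.mul_succ n N
  have e2 : n * (N + 1 - N) = n := by
    rw [Nat.add_sub_cancel_left, mul_one]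
  rw [e, e2, pow_add]
  have e3 : M.L ^ n * Y ^ n = 1 := by rw [← mul_pow, hY, one_pow]
  linear_combination (-(M.χ _ (GG f N (N + 1)) * Y ^ (n * N))) * e3

theorem jet_aN {R : Type} [CommRing R] (M : Meas K R) {Y : R} (hY : M.L * Y = 1)
    (f : Fin r → MvPolynomial (Fin n) K) (N : ℕ) :
    M.χ _ (JetI f N) * Y ^ (n * N) = aN M Y f N - aN M Y f (N + 1) := by
  rw [← aN_succ M hY]
  have h := jet_add M f N
  unfold aN
  linear_combination (-(Y ^ (n * N))) * h

theorem jet_stI {R : Type} [CommRing R] (M : Meas K R) {Y : R} (hY : M.L * Y = 1)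
    (f : Fin r → MvPolynomial (Fin n) K) (j₀ : Fin r) (u v : MvPolynomial (Fin n) K)
    (hu : constantCoeff u = 0) {N : ℕ} (hN : N ≠ 0) :
    M.χ _ (JetI (stI f j₀ u v) N) * Y ^ ((n + 1) * N) =
      Y ^ N * (M.L * aN M Y f N - aN M Y f (N + 1)) := by
  rw [← aN_succ M hY]
  have h := jet_add M (stI f j₀ u v) N
  rw [GG_stI M f j₀ u v hu (Nat.le_succ N), GG_stI M f j₀ u v hu le_rfl,
    GG_exI M f (Nat.one_le_iff_ne_zero.2 hN) (Nat.le_succ N),
    GG_exI M f (Nat.le_add_left 1 N) le_rfl, Nat.add_sub_cancel_left, Nat.sub_self, pow_one,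
    pow_zero, mul_one] at h
  have e : (n + 1) * N = N + n * N := by ring
  rw [e, pow_add]
  unfold aN
  linear_combination (-(Y ^ N * Y ^ (n * N))) * h

/-- the zeta function without the first factor, in `𝓜` -/
noncomputable def zz (f : Fin r → MvPolynomial (Fin n) K) : PowerSeries (MK K) :=
  PowerSeries.mk fun N => if N = 0 then 0 else
    algebraMap (K0 K) (MK K) (cls (Fin n × Fin (N + 1)) (JetI f N)) *
      (((Lu K) ^ (-((n * N : ℕ) : ℤ)) : (MK K)ˣ) : MK K)

theorem zetaI_eq (f : Fin r → MvPolynomial (Fin n) K) :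
    zetaI f = PowerSeries.C (((Lu K) ^ (-(n : ℤ)) : (MK K)ˣ) : MK K) * zz f := rfl

/-- **The relation between the zeta functions.** -/
theorem zz_stI [CharZero K] (f : Fin r → MvPolynomial (Fin n) K) (j₀ : Fin r)
    (u v : MvPolynomial (Fin n) K) (hu : constantCoeff u = 0) : ∃ c : MK K,
    fst (Lu K) * (PowerSeries.C c - zz (stI f j₀ u v)) = (1 - PowerSeries.X) *
      (PowerSeries.C c - PowerSeries.rescale ((((Lu K)⁻¹ : (MK K)ˣ)) : MK K) (zz f)) := by
  obtain ⟨M₀, hM₀⟩ := Pool.Agent.W417.MT.K0.main K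
  set M : Meas K (MK K) := Pool.Agent.W63.MTFin.mapMeas M₀ (algebraMap (K0 K) (MK K)) with hM
  have hχ : ∀ {ι : Type} [Fintype ι] (S : Set (Pt K ι)), M.χ ι S =
      algebraMap (K0 K) (MK K) (cls ι S) := by
    intro ι _ S
    rw [← hM₀]
    rfl
  set Y : MK K := ((((Lu K)⁻¹ : (MK K)ˣ)) : MK K) with hYd
  have hL : M.L = ((Lu K : (MK K)ˣ) : MK K) := by
    change algebraMap (K0 K) (MK K) (M₀.χ (Fin 1) Set.univ) = _
    rw [hM₀]
    rfl
  have hY : M.L * Y = 1 := by rw [hL, hYd, Units.mul_inv]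
  have hpow : ∀ N : ℕ, (((Lu K) ^ (-((N : ℕ) : ℤ)) : (MK K)ˣ) : MK K) = Y ^ N := by
    intro N
    rw [zpow_neg, zpow_natCast, ← inv_pow, Units.val_pow_eq_pow_val]
  have e1 : zz f = PowerSeries.mk fun N => if N = 0 then 0 else
      aN M Y f N - aN M Y f (N + 1) := by
    unfold zz
    congr 1
    funext N
    split_ifs with h
    · rfl
    · rw [hpow, ← hχ, jet_aN M hY]
  have e2 : zz (stI f j₀ u v) = PowerSeries.mk fun N => if N = 0 then 0 else
      Y ^ N * (M.L * aN M Y f N - aN M Y f (N + 1)) := by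
    unfold zz
    congr 1
    funext N
    split_ifs with h
    · rfl
    · rw [hpow, ← hχ, jet_stI M hY f j₀ u v hu h]
  refine ⟨aN M Y f 1, ?_⟩
  rw [e1, e2]
  exact rel M.L Y hY (aN M Y f)

end

end Pool.Agent.J6H85.CI
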